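import Pool.Agent.Run7.h911.NT6

/-!
# A Bessel inequality for the angles of many forms

Only the `L`-functions of pairs are used. `Run7.h748.ST.bessel` is an inequality for an arbitrary function
`g` on the primes of norm at most `N` and arbitrary intervals, one for each form, uniform in all of them.
-/

set_option autoImplicit false

namespace Run7.h748.ST

open NumberField IsDedekindDomain Filter Topology
open Pool.Agent.W540.BE (upto nm)
open Run7.h911.ST (U U_zero U_one abs_U_le mu ind ind_nonneg ind_le_one mu_pos)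
open Run7.h911.NT (avg LRegular avg_tendsto avg_add avg_mul avg_mono avg_one avg_sum equi uncorr sum_law
  mu_nonneg ind_sq mu_add mu_total mu_cont b2r b2r_nonneg b2r_le_one)

variable {K : Type} [Field K] [NumberField K] {m : ℕ}

/-- what is used of the `L`-functions of the forms: `θ i v` is the angle of the `i`-th form at `v` -/
structure Pairs (θ : Fin m → HeightOneSpectrum (𝓞 K) → ℝ) : Prop where
  /-- the angles -/
  angle : ∀ i v, θ i v ∈ Set.Icc 0 Real.pi
  /-- the `L`-functions of `Sym ^ a` of one form tensor `Sym ^ b` of another one -/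
  regular : ∀ n : Fin m → ℕ, n ≠ 0 → (∃ i j, ∀ k, k ≠ i → k ≠ j → n k = 0) → LRegular θ n

variable {θ : Fin m → HeightOneSpectrum (𝓞 K) → ℝ}

theorem pairU (h : Pairs θ) {i j : Fin m} (hij : i ≠ j) {a b : ℕ} (hn : a ≠ 0 ∨ b ≠ 0) :
    Tendsto (avg fun v => U a (θ i v) * U b (θ j v)) atTop (𝓝 0) := by
  set n : Fin m → ℕ := fun l => if l = i then a else if l = j then b else 0 with hnd
  have ei : n i = a := by simp [hnd]
  have ej : n j = b := by simp [hnd, hij.symm]
  have h1 := avg_tendsto (h.regular n (fun h0 => by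
    rw [h0] at ei ej
    simp only [Pi.zero_apply] at ei ej
    omega) ⟨i, j, fun k hk1 hk2 => by simp [hnd, hk1, hk2]⟩)
  refine h1.congr fun N => ?_
  congr 1
  funext v
  rw [Finset.prod_eq_mul i j hij]
  · rw [ei, ej]
  · intro q _ hq
    have : n q = 0 := by simp [hnd, hq.1, hq.2]
    rw [this, U_zero]
  · intro h; exact absurd (Finset.mem_univ i) h
  · intro h; exact absurd (Finset.mem_univ j) h

theorem single (h : Pairs θ) (i : Fin m) {a : ℕ} (ha : 1 ≤ a) :
    Tendsto (avg fun v => U a (θ i v)) atTop (𝓝 0) := by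
  classical
  set n : Fin m → ℕ := fun l => if l = i then a else 0 with hnd
  have ei : n i = a := by simp [hnd]
  have h1 := avg_tendsto (h.regular n (fun h0 => by
    rw [h0] at ei
    simp only [Pi.zero_apply] at ei
    omega) ⟨i, i, fun k hk1 _ => by simp [hnd, hk1]⟩)
  refine h1.congr fun N => ?_
  congr 1
  funext v
  rw [Finset.prod_eq_single i]
  · rw [ei]
  · intro q _ hq
    have : n q = 0 := by simp [hnd, hq]
    rw [this, U_zero]
  · intro h; exact absurd (Finset.mem_univ i) h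

theorem ind_law (h : Pairs θ) (i : Fin m) {a b : ℝ} (h0 : 0 ≤ a) (hab : a ≤ b)
    (hb : b ≤ Real.pi) : Tendsto (avg fun v => ind a b (θ i v)) atTop (𝓝 (mu a b)) := by
  have := equi (h.angle i) (g := fun _ => 1) (a0 := 1) (fun _ => zero_le_one) zero_le_one (fun k => by
    rcases Nat.eq_zero_or_pos k with rfl | hk
    · rw [if_pos rfl]
      refine (avg_one (K := K)).congr fun N => ?_
      congr 1
      funext v
      rw [U_zero, mul_one]
    · rw [if_neg (by omega)]
      refine (single h i hk).congr fun N => ?_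
      congr 1
      funext v
      rw [one_mul]) h0 hab hb
  rw [one_mul] at this
  refine this.congr fun N => ?_
  congr 1
  funext v
  rw [one_mul]

theorem pair_ind (h : Pairs θ) {i j : Fin m} (hij : i ≠ j) {a b c d : ℝ} (h0 : 0 ≤ a) (hab : a ≤ b)
    (hb : b ≤ Real.pi) (h0' : 0 ≤ c) (hcd : c ≤ d) (hd : d ≤ Real.pi) :
    Tendsto (avg fun v => ind a b (θ j v) * ind c d (θ i v)) atTop (𝓝 (mu a b * mu c d)) := by
  refine equi (h.angle i) (fun _ => ind_nonneg _ _ _) (mu_nonneg hab) (fun k => ?_) h0' hcd hd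
  rcases Nat.eq_zero_or_pos k with rfl | hk
  · rw [if_pos rfl]
    refine (ind_law h j h0 hab hb).congr fun N => ?_
    congr 1
    funext v
    rw [U_zero, mul_one]
  · rw [if_neg (by omega)]
    have := uncorr (w := fun v => U k (θ i v)) (fun v => abs_U_le k _) (h.angle j)
      (fun l hl => single h j hl) (fun l => pairU h hij (Or.inl (by omega))) h0 hab hb
    refine this.congr fun N => ?_
    congr 1
    funext v
    ring

/-- the centered indicator function of an interval -/
noncomputable def H (a b t : ℝ) : ℝ := ind a b t - mu a b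

theorem gram_eq (h : Pairs θ) (i : Fin m) {a b : ℝ} (h0 : 0 ≤ a) (hab : a ≤ b) (hb : b ≤ Real.pi) :
    Tendsto (avg fun v => H a b (θ i v) * H a b (θ i v)) atTop (𝓝 (mu a b - mu a b ^ 2)) := by
  set μ := mu a b with hμ
  have h1 := ind_law h i h0 hab hb
  have hone := (avg_one (K := K)).const_mul (μ ^ 2)
  rw [mul_one] at hone
  have h3 := (h1.add (h1.const_mul (-2 * μ))).add hone
  have e : mu a b + -2 * μ * mu a b + μ ^ 2 = μ - μ ^ 2 := by rw [← hμ]; ring
  rw [e] at h3
  refine h3.congr fun N => ?_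
  rw [← avg_mul, ← avg_mul, ← avg_add, ← avg_add]
  congr 1
  funext v
  have := ind_sq a b (θ i v)
  unfold H
  rw [← hμ]
  nlinarith

theorem gram_ne (h : Pairs θ) {i j : Fin m} (hij : i ≠ j) {a b c d : ℝ} (h0 : 0 ≤ a) (hab : a ≤ b)
    (hb : b ≤ Real.pi) (h0' : 0 ≤ c) (hcd : c ≤ d) (hd : d ≤ Real.pi) :
    Tendsto (avg fun v => H a b (θ i v) * H c d (θ j v)) atTop (𝓝 0) := by
  have h1 := ind_law h i h0 hab hb
  have h2 := ind_law h j h0' hcd hd
  have hone := (avg_one (K := K)).const_mul (mu a b * mu c d)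
  rw [mul_one] at hone
  have h4 := pair_ind h hij.symm h0 hab hb h0' hcd hd
  have h3 := ((h4.add (h1.const_mul (-mu c d))).add (h2.const_mul (-mu a b))).add hone
  have e : mu a b * mu c d + -mu c d * mu a b + -mu a b * mu c d + mu a b * mu c d = 0 := by ring
  rw [e] at h3
  refine h3.congr fun N => ?_
  rw [← avg_mul, ← avg_mul, ← avg_mul, ← avg_add, ← avg_add, ← avg_add]
  congr 1
  funext v
  unfold H
  ring

theorem avg_nonneg {f : HeightOneSpectrum (𝓞 K) → ℝ} (hf : ∀ v, 0 ≤ f v) (N : ℕ) : 0 ≤ avg f N := by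
  unfold avg
  exact div_nonneg (Finset.sum_nonneg fun v _ => hf v) (by positivity)

theorem avg_one_le (N : ℕ) : avg (fun _ : HeightOneSpectrum (𝓞 K) => (1 : ℝ)) N ≤ 1 := by
  unfold avg
  rw [Finset.sum_const, nsmul_eq_mul, mul_one]
  exact div_self_le_one _

/-- Cauchy-Schwarz -/
theorem cs (f g : HeightOneSpectrum (𝓞 K) → ℝ) (N : ℕ) :
    avg (fun v => f v * g v) N ^ 2 ≤ avg (fun v => f v ^ 2) N * avg (fun v => g v ^ 2) N := by
  unfold avg
  rw [div_pow, div_mul_div_comm, ← sq]
  exact div_le_div_of_nonneg_right (Finset.sum_mul_sq_le_sq_mul_sq _ _ _) (by positivity)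

/-- Bessel's inequality for an almost orthogonal system -/
theorem bessel_fix {ι : Type*} [Fintype ι] (X : ι → HeightOneSpectrum (𝓞 K) → ℝ) (N : ℕ)
    {V δ : ℝ} (hδ : 0 ≤ δ) (hV : 0 ≤ V)
    (hd : ∀ i, avg (fun v => X i v * X i v) N ≤ V + δ)
    (ho : ∀ i j, i ≠ j → |avg (fun v => X i v * X j v) N| ≤ δ)
    (g : HeightOneSpectrum (𝓞 K) → ℝ) :
    ∑ i, avg (fun v => g v * X i v) N ^ 2 ≤ (V + Fintype.card ι * δ) * avg (fun v => g v ^ 2) N := by
  classical
  set c : ι → ℝ := fun i => avg (fun v => g v * X i v) N with hc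
  set S : ℝ := ∑ i, c i ^ 2 with hS
  set G : ℝ := avg (fun v => g v ^ 2) N with hG
  have hG0 : 0 ≤ G := avg_nonneg (fun v => sq_nonneg _) N
  have hS0 : 0 ≤ S := Finset.sum_nonneg fun i _ => sq_nonneg _
  -- linearity
  have e1 : avg (fun v => g v * ∑ i, c i * X i v) N = S := by
    have : (fun v => g v * ∑ i, c i * X i v) = fun v => ∑ i, c i * (g v * X i v) := by
      funext v
      rw [Finset.mul_sum]
      exact Finset.sum_congr rfl fun i _ => by ring
    rw [this, avg_sum, hS]
    refine Finset.sum_congr rfl fun i _ => ?_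
    rw [avg_mul, hc]
    ring
  have e2 : avg (fun v => (∑ i, c i * X i v) ^ 2) N =
      ∑ i, ∑ j, c i * c j * avg (fun v => X i v * X j v) N := by
    have : (fun v => (∑ i, c i * X i v) ^ 2) =
        fun v => ∑ i, ∑ j, (c i * c j) * (X i v * X j v) := by
      funext v
      rw [sq, Finset.sum_mul_sum]
      exact Finset.sum_congr rfl fun i _ => Finset.sum_congr rfl fun j _ => by ring
    rw [this, avg_sum]
    refine Finset.sum_congr rfl fun i _ => ?_
    rw [avg_sum]
    refine Finset.sum_congr rfl fun j _ => ?_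
    rw [avg_mul]
  -- the quadratic form
  have e3 : ∑ i, ∑ j, c i * c j * avg (fun v => X i v * X j v) N ≤ (V + Fintype.card ι * δ) * S := by
    have h1 : ∀ i j, c i * c j * avg (fun v => X i v * X j v) N ≤
        (if i = j then V * c i ^ 2 else 0) + δ * ((c i ^ 2 + c j ^ 2) / 2) := by
      intro i j
      by_cases hij : i = j
      · subst hij
        rw [if_pos rfl]
        have := mul_le_mul_of_nonneg_left (hd i) (sq_nonneg (c i))
        nlinarith
      · rw [if_neg hij, zero_add]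
        have h2 := ho i j hij
        have h3 : |c i * c j| ≤ (c i ^ 2 + c j ^ 2) / 2 := by
          rw [abs_mul]
          have := sq_nonneg (|c i| - |c j|)
          rw [sub_sq, sq_abs, sq_abs] at this
          linarith
        calc c i * c j * avg (fun v => X i v * X j v) N
            ≤ |c i * c j * avg (fun v => X i v * X j v) N| := le_abs_self _
          _ = |c i * c j| * |avg (fun v => X i v * X j v) N| := abs_mul _ _
          _ ≤ ((c i ^ 2 + c j ^ 2) / 2) * δ :=
            mul_le_mul h3 h2 (abs_nonneg _) (by positivity)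
          _ = δ * ((c i ^ 2 + c j ^ 2) / 2) := mul_comm _ _
    calc ∑ i, ∑ j, c i * c j * avg (fun v => X i v * X j v) N
        ≤ ∑ i, ∑ j, ((if i = j then V * c i ^ 2 else 0) + δ * ((c i ^ 2 + c j ^ 2) / 2)) :=
          Finset.sum_le_sum fun i _ => Finset.sum_le_sum fun j _ => h1 i j
      _ = (V + Fintype.card ι * δ) * S := by
          simp only [Finset.sum_add_distrib, Finset.sum_ite_eq, Finset.mem_univ, if_true,
            ← Finset.mul_sum, ← Finset.sum_div, Finset.sum_const, Finset.card_univ, nsmul_eq_mul]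
          rw [← hS]
          ring
  have key : S ^ 2 ≤ G * ((V + Fintype.card ι * δ) * S) := by
    calc S ^ 2 = avg (fun v => g v * ∑ i, c i * X i v) N ^ 2 := by rw [e1]
      _ ≤ G * avg (fun v => (∑ i, c i * X i v) ^ 2) N := cs _ _ N
      _ ≤ G * ((V + Fintype.card ι * δ) * S) := by
        rw [e2]
        exact mul_le_mul_of_nonneg_left e3 hG0
  rcases hS0.eq_or_lt with h0 | h0
  · rw [← h0]
    positivity
  · have : S * S ≤ ((V + Fintype.card ι * δ) * G) * S := by nlinarith
    exact le_of_mul_le_mul_right this h0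

/-- the grid -/
theorem grid {M : ℕ} (hM : 0 < M) : ∃ t : ℕ → ℝ, ∀ r, t r ∈ Set.Icc 0 Real.pi ∧
    mu 0 (t r) = (min r M : ℕ) / M := by
  have hp := Real.pi_pos
  have hMpos : (0 : ℝ) < M := by exact_mod_cast hM
  have hgrid : ∀ r : ℕ, ∃ t : ℝ, t ∈ Set.Icc 0 Real.pi ∧ mu 0 t = (min r M : ℕ) / M := by
    intro r
    have h1 := intermediate_value_Icc hp.le (mu_cont.continuousOn (s := Set.Icc 0 Real.pi))
    have h2 : ((min r M : ℕ) : ℝ) / M ∈ Set.Icc (mu 0 0) (mu 0 Real.pi) := by
      rw [mu_total]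
      have : mu 0 0 = 0 := by unfold mu; rw [intervalIntegral.integral_same, mul_zero]
      rw [this]
      have hr' : ((min r M : ℕ) : ℝ) ≤ M := by exact_mod_cast min_le_right r M
      exact ⟨by positivity, (div_le_one hMpos).2 hr'⟩
    obtain ⟨t, ht, hmt⟩ := h1 h2
    exact ⟨t, ht, hmt⟩
  choose t ht using hgrid
  exact ⟨t, ht⟩

theorem le_of_mu {p q : ℝ} (hp : p ∈ Set.Icc 0 Real.pi) (hq : q ∈ Set.Icc 0 Real.pi)
    (h : mu 0 p ≤ mu 0 q) : p ≤ q := by
  by_contra hlt
  push Not at hlt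
  have h1 := mu_pos hq.1 hlt hp.2
  have h2 := mu_add (a := 0) (b := q) (c := p)
  linarith

theorem mu_le_one {u : ℝ} (hu : u ≤ Real.pi) : mu 0 u ≤ 1 := by
  rw [← mu_total, ← mu_add (a := 0) (b := u) (c := Real.pi)]
  linarith [mu_nonneg hu]

/-- the index of a point in the grid -/
theorem grid_index {M : ℕ} (hM : 0 < M) {t : ℕ → ℝ} (ht : ∀ r, t r ∈ Set.Icc 0 Real.pi ∧
    mu 0 (t r) = (min r M : ℕ) / M) {u : ℝ} (hu : u ∈ Set.Icc 0 Real.pi) {r : ℕ}
    (hr : r = ⌊(M : ℝ) * mu 0 u⌋₊) :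
    r ≤ M ∧ t r ≤ u ∧ u ≤ t (r + 1) ∧ mu 0 (t r) ≤ mu 0 u ∧ mu 0 u ≤ mu 0 (t r) + 1 / M := by
  have hMpos : (0 : ℝ) < M := by exact_mod_cast hM
  have hu0 : 0 ≤ mu 0 u := mu_nonneg hu.1
  have hu1 : mu 0 u ≤ 1 := mu_le_one hu.2
  have hr1 : (r : ℝ) ≤ M * mu 0 u := by rw [hr]; exact Nat.floor_le (by positivity)
  have hr2 : (M : ℝ) * mu 0 u < r + 1 := by rw [hr]; exact Nat.lt_floor_add_one _
  have hrM : r ≤ M := by
    have : (r : ℝ) ≤ M := by nlinarith
    exact_mod_cast this
  have e1 : mu 0 (t r) = r / M := by rw [(ht r).2, min_eq_left hrM]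
  have h1 : mu 0 (t r) ≤ mu 0 u := by
    rw [e1, div_le_iff₀ hMpos]
    linarith
  have h2 : mu 0 u ≤ mu 0 (t r) + 1 / M := by
    rw [e1, ← add_div, le_div_iff₀ hMpos]
    linarith
  have h3 : mu 0 u ≤ mu 0 (t (r + 1)) := by
    rw [(ht (r + 1)).2]
    rcases Nat.lt_or_ge r M with h | h
    · rw [min_eq_left (by omega), le_div_iff₀ hMpos]
      push_cast
      linarith
    · rw [min_eq_right (by omega), div_self hMpos.ne']
      exact hu1
  exact ⟨hrM, le_of_mu (ht r).1 hu h1, le_of_mu hu (ht (r + 1)).1 h3, h1, h2⟩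

theorem mu_step {M : ℕ} (hM : 0 < M) {t : ℕ → ℝ} (ht : ∀ r, t r ∈ Set.Icc 0 Real.pi ∧
    mu 0 (t r) = (min r M : ℕ) / M) (r : ℕ) : t r ≤ t (r + 1) ∧ mu (t r) (t (r + 1)) ≤ 1 / M := by
  have hMpos : (0 : ℝ) < M := by exact_mod_cast hM
  have h1 : mu 0 (t r) ≤ mu 0 (t (r + 1)) := by
    rw [(ht r).2, (ht (r + 1)).2]
    refine div_le_div_of_nonneg_right ?_ hMpos.le
    exact_mod_cast min_le_min_right M (Nat.le_succ r)
  refine ⟨le_of_mu (ht r).1 (ht (r + 1)).1 h1, ?_⟩
  have h2 := mu_add (a := 0) (b := t r) (c := t (r + 1))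
  rw [(ht r).2, (ht (r + 1)).2] at h2
  have h3 : (((min (r + 1) M : ℕ) : ℝ)) ≤ ((min r M : ℕ) : ℝ) + 1 := by
    have : min (r + 1) M ≤ min r M + 1 := by omega
    exact_mod_cast this
  have h4 : mu (t r) (t (r + 1)) = (((min (r + 1) M : ℕ) : ℝ) - ((min r M : ℕ) : ℝ)) / M := by
    rw [sub_div]
    linarith
  rw [h4]
  exact div_le_div_of_nonneg_right (by linarith) hMpos.le

theorem ind_of {a b x : ℝ} (h : x ∈ Set.Icc a b) : ind a b x = 1 := by
  unfold ind
  rw [if_pos h]

theorem ind_off {a b x : ℝ} (h : x ∉ Set.Icc a b) : ind a b x = 0 := by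
  unfold ind
  rw [if_neg h]

/-- comparison with a grid interval -/
theorem H_close {M : ℕ} (hM : 0 < M) {t : ℕ → ℝ} (ht : ∀ r, t r ∈ Set.Icc 0 Real.pi ∧
    mu 0 (t r) = (min r M : ℕ) / M) {a b : ℝ} (h0 : 0 ≤ a) (hab : a ≤ b) (hb : b ≤ Real.pi) :
    ∃ p q, p ≤ M ∧ q ≤ M ∧ t p ≤ t q ∧ ∀ x, |H a b x - H (t p) (t q) x| ≤
      ind (t p) (t (p + 1)) x + ind (t q) (t (q + 1)) x + 1 / M := by
  have hMpos : (0 : ℝ) < M := by exact_mod_cast hM
  have hmab : mu 0 a ≤ mu 0 b := by
    have := mu_add (a := 0) (b := a) (c := b)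
    linarith [mu_nonneg hab]
  have hmono : ⌊(M : ℝ) * mu 0 a⌋₊ ≤ ⌊(M : ℝ) * mu 0 b⌋₊ :=
    Nat.floor_mono (mul_le_mul_of_nonneg_left hmab hMpos.le)
  obtain ⟨hp, p1, p2, p3, p4⟩ := grid_index hM ht (u := a) ⟨h0, hab.trans hb⟩ rfl
  obtain ⟨hq, q1, q2, q3, q4⟩ := grid_index hM ht (u := b) ⟨h0.trans hab, hb⟩ rfl
  set p : ℕ := ⌊(M : ℝ) * mu 0 a⌋₊ with hpd
  set q : ℕ := ⌊(M : ℝ) * mu 0 b⌋₊ with hqd
  have hpq : t p ≤ t q := by
    refine le_of_mu (ht p).1 (ht q).1 ?_
    rw [(ht p).2, (ht q).2]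
    refine div_le_div_of_nonneg_right ?_ hMpos.le
    exact_mod_cast min_le_min_right M hmono
  refine ⟨p, q, hp, hq, hpq, fun x => ?_⟩
  have hm1 := mu_add (a := 0) (b := a) (c := b)
  have hm2 := mu_add (a := 0) (b := t p) (c := t q)
  have hmu : |mu a b - mu (t p) (t q)| ≤ 1 / M := by
    rw [abs_le]
    constructor <;> linarith
  have hind : |ind a b x - ind (t p) (t q) x| ≤ ind (t p) (t (p + 1)) x + ind (t q) (t (q + 1)) x := by
    have n1 := ind_nonneg (t p) (t (p + 1)) x
    have n2 := ind_nonneg (t q) (t (q + 1)) x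
    by_cases hx : x ∈ Set.Icc a b
    · by_cases hy : x ∈ Set.Icc (t p) (t q)
      · rw [ind_of hx, ind_of hy, sub_self, abs_zero]
        positivity
      · have h1 : t q < x := by
          by_contra hcon
          exact hy ⟨p1.trans hx.1, not_lt.1 hcon⟩
        have h2 : x ∈ Set.Icc (t q) (t (q + 1)) := ⟨h1.le, hx.2.trans q2⟩
        rw [ind_of hx, ind_off hy, ind_of h2, sub_zero, abs_one]
        linarith
    · by_cases hy : x ∈ Set.Icc (t p) (t q)
      · have h1 : x < a := by
          by_contra hcon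
          exact hx ⟨not_lt.1 hcon, hy.2.trans q1⟩
        have h2 : x ∈ Set.Icc (t p) (t (p + 1)) := ⟨hy.1, h1.le.trans p2⟩
        rw [ind_off hx, ind_of hy, ind_of h2, zero_sub, abs_neg, abs_one]
        linarith
      · rw [ind_off hx, ind_off hy, sub_self, abs_zero]
        positivity
  calc |H a b x - H (t p) (t q) x|
      = |(ind a b x - ind (t p) (t q) x) - (mu a b - mu (t p) (t q))| := by
        unfold H
        congr 1
        ring
    _ ≤ |ind a b x - ind (t p) (t q) x| + |mu a b - mu (t p) (t q)| := abs_sub _ _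
    _ ≤ _ := add_le_add hind hmu

/-- **Bessel's inequality**, uniform in the function `g` and in the intervals. -/
theorem bessel (h : Pairs θ) {ε : ℝ} (hε : 0 < ε) : ∀ᶠ N : ℕ in atTop,
    ∀ (g : HeightOneSpectrum (𝓞 K) → ℝ) (a b : Fin m → ℝ),
      (∀ i, 0 ≤ a i ∧ a i ≤ b i ∧ b i ≤ Real.pi) →
      ∑ i, avg (fun v => g v * H (a i) (b i) (θ i v)) N ^ 2 ≤ (1 / 4 + ε) * avg (fun v => g v ^ 2) N := by
  -- the parameters
  set κ : ℝ := min 1 (ε / (4 + 2 * m)) with hκd
  have hκ0 : 0 < κ := by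
    rw [hκd]
    exact lt_min one_pos (by positivity)
  have hκ1 : κ ≤ 1 := min_le_left _ _
  have hκ2 : κ * (4 + 2 * m) ≤ ε := by
    have : κ ≤ ε / (4 + 2 * m) := min_le_right _ _
    rwa [le_div_iff₀ (by positivity)] at this
  set M : ℕ := ⌈24 / κ ^ 2⌉₊ with hMd
  have hM24 : 24 / κ ^ 2 ≤ (M : ℝ) := Nat.le_ceil _
  have hMpos : (0 : ℝ) < M := lt_of_lt_of_le (by positivity) hM24
  have hM : 0 < M := by exact_mod_cast hMpos
  have hM1 : (1 : ℝ) ≤ M := by exact_mod_cast hM
  have hMκ : 24 / (M : ℝ) ≤ κ ^ 2 := by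
    rw [div_le_iff₀ hMpos]
    rw [div_le_iff₀ (by positivity)] at hM24
    linarith
  obtain ⟨t, ht⟩ := grid hM
  set δ : ℝ := κ / (m + 1) with hδd
  have hδ0 : 0 < δ := by positivity
  have hδm : (m : ℝ) * δ ≤ κ := by
    rw [hδd, ← mul_div_assoc, div_le_iff₀ (by positivity)]
    nlinarith
  -- the finitely many mean values
  have g1 : ∀ᶠ N : ℕ in atTop, ∀ i : Fin m, ∀ p ∈ Finset.range (M + 1), ∀ q ∈ Finset.range (M + 1),
      t p ≤ t q → avg (fun v => H (t p) (t q) (θ i v) * H (t p) (t q) (θ i v)) N ≤ 1 / 4 + δ := by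
    rw [eventually_all]
    intro i
    rw [Filter.eventually_all_finset]
    intro p _
    rw [Filter.eventually_all_finset]
    intro q _
    by_cases hpq : t p ≤ t q
    · have h1 := gram_eq h i (ht p).1.1 hpq (ht q).1.2
      have h2 : mu (t p) (t q) - mu (t p) (t q) ^ 2 < 1 / 4 + δ := by
        nlinarith [sq_nonneg (mu (t p) (t q) - 1 / 2)]
      filter_upwards [h1.eventually (gt_mem_nhds h2)] with N hN _
      exact hN.le
    · exact Eventually.of_forall fun N h' => absurd h' hpq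
  have g2 : ∀ᶠ N : ℕ in atTop, ∀ i j : Fin m, i ≠ j → ∀ p ∈ Finset.range (M + 1),
      ∀ q ∈ Finset.range (M + 1), ∀ r ∈ Finset.range (M + 1), ∀ s ∈ Finset.range (M + 1),
      t p ≤ t q → t r ≤ t s →
        |avg (fun v => H (t p) (t q) (θ i v) * H (t r) (t s) (θ j v)) N| ≤ δ := by
    rw [eventually_all]
    intro i
    rw [eventually_all]
    intro j
    by_cases hij : i = j
    · exact Eventually.of_forall fun N h' => absurd hij h'
    have h1 : ∀ᶠ N : ℕ in atTop, ∀ p ∈ Finset.range (M + 1),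
        ∀ q ∈ Finset.range (M + 1), ∀ r ∈ Finset.range (M + 1), ∀ s ∈ Finset.range (M + 1),
        t p ≤ t q → t r ≤ t s →
          |avg (fun v => H (t p) (t q) (θ i v) * H (t r) (t s) (θ j v)) N| ≤ δ := by
      rw [Filter.eventually_all_finset]
      intro p _
      rw [Filter.eventually_all_finset]
      intro q _
      rw [Filter.eventually_all_finset]
      intro r _
      rw [Filter.eventually_all_finset]
      intro s _
      by_cases hpq : t p ≤ t q
      · by_cases hrs : t r ≤ t s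
        · have h1 := (gram_ne h hij (ht p).1.1 hpq (ht q).1.2 (ht r).1.1 hrs (ht s).1.2).abs
          rw [abs_zero] at h1
          filter_upwards [h1.eventually (gt_mem_nhds hδ0)] with N hN _ _
          exact hN.le
        · exact Eventually.of_forall fun N _ h' => absurd h' hrs
      · exact Eventually.of_forall fun N h' => absurd h' hpq
    exact h1.mono fun N hN _ => hN
  have g3 : ∀ᶠ N : ℕ in atTop, ∀ i : Fin m, ∀ p ∈ Finset.range (M + 1),
      avg (fun v => ind (t p) (t (p + 1)) (θ i v)) N ≤ 2 / M := by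
    rw [eventually_all]
    intro i
    rw [Filter.eventually_all_finset]
    intro p _
    have h1 := ind_law h i (ht p).1.1 (mu_step hM ht p).1 (ht (p + 1)).1.2
    have h2 : mu (t p) (t (p + 1)) < 2 / M := by
      have := (mu_step hM ht p).2
      have h3 : 2 / (M : ℝ) = 1 / M + 1 / M := by ring
      have : 0 < 1 / (M : ℝ) := by positivity
      linarith
    filter_upwards [h1.eventually (gt_mem_nhds h2)] with N hN
    exact hN.le
  filter_upwards [g1, g2, g3] with N k1 k2 k3 g a b hab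
  have hcl := fun i => H_close hM ht (hab i).1 (hab i).2.1 (hab i).2.2
  choose p q hp hq hpq hD using hcl
  set G : ℝ := avg (fun v => g v ^ 2) N with hG
  have hG0 : 0 ≤ G := avg_nonneg (fun v => sq_nonneg _) N
  set X : Fin m → HeightOneSpectrum (𝓞 K) → ℝ := fun i v => H (t (p i)) (t (q i)) (θ i v) with hX
  have hB := bessel_fix X N (V := 1 / 4) hδ0.le (by norm_num)
    (fun i => k1 i (p i) (Finset.mem_range.2 (by have := hp i; omega)) (q i)
      (Finset.mem_range.2 (by have := hq i; omega)) (hpq i))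
    (fun i j hij => k2 i j hij (p i) (Finset.mem_range.2 (by have := hp i; omega)) (q i)
      (Finset.mem_range.2 (by have := hq i; omega)) (p j) (Finset.mem_range.2 (by have := hp j; omega))
      (q j) (Finset.mem_range.2 (by have := hq j; omega)) (hpq i) (hpq j)) g
  rw [Fintype.card_fin, ← hG] at hB
  set D : Fin m → HeightOneSpectrum (𝓞 K) → ℝ := fun i v => H (a i) (b i) (θ i v) - X i v with hDd
  have hdev : ∀ i, avg (fun v => g v * D i v) N ^ 2 ≤ κ ^ 2 * G := by
    intro i
    have h1 := cs g (D i) N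
    have h2 : avg (fun v => D i v ^ 2) N ≤ κ ^ 2 := by
      have h3 : avg (fun v => D i v ^ 2) N ≤ avg (fun v =>
          3 * (ind (t (p i)) (t (p i + 1)) (θ i v) + ind (t (q i)) (t (q i + 1)) (θ i v) +
            1 / (M : ℝ) ^ 2 * 1)) N := by
        refine avg_mono (fun v => ?_) N
        have h4 := hD i (θ i v)
        set x := ind (t (p i)) (t (p i + 1)) (θ i v) with hx
        set y := ind (t (q i)) (t (q i + 1)) (θ i v) with hy
        have ex : x * x = x := ind_sq _ _ _
        have ey : y * y = y := ind_sq _ _ _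
        have h5 : D i v ^ 2 ≤ (x + y + 1 / M) ^ 2 := by
          rw [← sq_abs (D i v)]
          exact pow_le_pow_left₀ (abs_nonneg _) h4 2
        refine h5.trans ?_
        have e : (1 / (M : ℝ)) ^ 2 = 1 / (M : ℝ) ^ 2 := by rw [one_div_pow]
        nlinarith [sq_nonneg (x - y), sq_nonneg (x - 1 / M), sq_nonneg (y - 1 / M)]
      refine h3.trans ?_
      rw [avg_mul, avg_add, avg_add, avg_mul]
      have h6 := k3 i (p i) (Finset.mem_range.2 (by have := hp i; omega))
      have h7 := k3 i (q i) (Finset.mem_range.2 (by have := hq i; omega))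
      have h8 : 1 / (M : ℝ) ^ 2 * avg (fun _ : HeightOneSpectrum (𝓞 K) => (1 : ℝ)) N ≤ 1 / M := by
        calc 1 / (M : ℝ) ^ 2 * avg (fun _ : HeightOneSpectrum (𝓞 K) => (1 : ℝ)) N
            ≤ 1 / (M : ℝ) ^ 2 * 1 := mul_le_mul_of_nonneg_left (avg_one_le N) (by positivity)
          _ ≤ 1 / M := by
            rw [mul_one]
            refine one_div_le_one_div_of_le hMpos ?_
            nlinarith
      have h9 : 24 / (M : ℝ) = 24 * (1 / M) := by ring
      have h10 : 2 / (M : ℝ) = 2 * (1 / M) := by ring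
      have h11 : 0 < 1 / (M : ℝ) := by positivity
      rw [h10] at h6 h7
      rw [h9] at hMκ
      linarith
    calc avg (fun v => g v * D i v) N ^ 2 ≤ G * avg (fun v => D i v ^ 2) N := h1
      _ ≤ G * κ ^ 2 := mul_le_mul_of_nonneg_left h2 hG0
      _ = κ ^ 2 * G := mul_comm _ _
  have hterm : ∀ i, avg (fun v => g v * H (a i) (b i) (θ i v)) N ^ 2 ≤
      (1 + κ) * avg (fun v => g v * X i v) N ^ 2 + 2 * κ * G := by
    intro i
    have e : avg (fun v => g v * H (a i) (b i) (θ i v)) N =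
        avg (fun v => g v * X i v) N + avg (fun v => g v * D i v) N := by
      rw [← avg_add]
      congr 1
      funext v
      simp only [hDd]
      ring
    rw [e]
    set x := avg (fun v => g v * X i v) N
    set d := avg (fun v => g v * D i v) N
    have h1 : d ^ 2 ≤ κ ^ 2 * G := hdev i
    have h2 : 2 * x * d ≤ κ * x ^ 2 + κ * G := by
      have h3 : κ * (2 * x * d) ≤ κ * (κ * x ^ 2 + κ * G) := by nlinarith [sq_nonneg (κ * x - d)]
      exact le_of_mul_le_mul_left h3 hκ0
    have h4 : κ ^ 2 * G ≤ κ * G := by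
      refine mul_le_mul_of_nonneg_right ?_ hG0
      nlinarith
    nlinarith
  calc ∑ i, avg (fun v => g v * H (a i) (b i) (θ i v)) N ^ 2
      ≤ ∑ i, ((1 + κ) * avg (fun v => g v * X i v) N ^ 2 + 2 * κ * G) :=
        Finset.sum_le_sum fun i _ => hterm i
    _ = (1 + κ) * ∑ i, avg (fun v => g v * X i v) N ^ 2 + m * (2 * κ * G) := by
        rw [Finset.sum_add_distrib, ← Finset.mul_sum, Finset.sum_const, Finset.card_univ,
          Fintype.card_fin, nsmul_eq_mul]
    _ ≤ (1 + κ) * ((1 / 4 + m * δ) * G) + m * (2 * κ * G) := by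
        have := mul_le_mul_of_nonneg_left hB (show 0 ≤ 1 + κ by linarith)
        linarith
    _ ≤ (1 / 4 + ε) * G := by
        have h1 : (1 + κ) * (1 / 4 + m * δ) + m * (2 * κ) ≤ 1 / 4 + ε := by
          have h2 : (1 + κ) * (1 / 4 + m * δ) ≤ (1 + κ) * (1 / 4 + κ) :=
            mul_le_mul_of_nonneg_left (by linarith) (by linarith)
          nlinarith
        have := mul_le_mul_of_nonneg_right h1 hG0
        linarith

end Run7.h748.ST
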